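import Pool.Agent.Work.MP_9a1701_nt.Sieve
import Mathlib.NumberTheory.PrimeCounting

/-!
# Blocks of consecutive primes whose sums fall in a short window
-/

noncomputable section

open Finset

namespace Pool.Agent.Work.MP_9a1701_nt

/-- the `i`-th prime -/
def pr (i : ℕ) : ℕ := Nat.nth Nat.Prime i

lemma pr_prime (i : ℕ) : (pr i).Prime := Nat.nth_mem_of_infinite Nat.infinite_setOfPred_prime i

lemma pr_strictMono : StrictMono pr := Nat.nth_strictMono Nat.infinite_setOfPred_prime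

lemma le_pr (i : ℕ) : i ≤ pr i := pr_strictMono.le_apply

/-- the sum of `k` consecutive primes starting with the `i`-th -/
def S (k i : ℕ) : ℕ := ∑ j ∈ range k, pr (i + j)

lemma S_succ (k i : ℕ) : S k (i + 1) + pr i = S k i + pr (i + k) := by
  have h1 : ∑ j ∈ range (k + 1), pr (i + j) = S k i + pr (i + k) := by
    rw [Finset.sum_range_succ]; rfl
  have h2 : ∑ j ∈ range (k + 1), pr (i + j) = S k (i + 1) + pr i := by
    rw [Finset.sum_range_succ']
    simp only [S, add_zero]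
    congr 1
    refine Finset.sum_congr rfl fun j _ => ?_
    congr 1; ring
  omega

lemma S_strictMono {k : ℕ} (hk : 1 ≤ k) : StrictMono (S k) := by
  refine strictMono_nat_of_lt_succ fun i => ?_
  have h := S_succ k i
  have : pr i < pr (i + k) := pr_strictMono (by omega)
  omega

lemma mul_pr_le_S (k i : ℕ) : k * pr i ≤ S k i := by
  have : ∑ _j ∈ range k, pr i ≤ S k i :=
    Finset.sum_le_sum fun j _ => pr_strictMono.monotone (by omega)
  simpa using this

lemma S_succ_le (k i : ℕ) : S k (i + 1) ≤ k * pr (i + k) := by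
  have : S k (i + 1) ≤ ∑ _j ∈ range k, pr (i + k) :=
    Finset.sum_le_sum fun j hj => pr_strictMono.monotone (by have := mem_range.1 hj; omega)
  simpa using this

/-- pairs (length, start) such that two consecutive block sums lie in `(n, n+H]` -/
def D (K H n : ℕ) : Finset (ℕ × ℕ) :=
  (Icc 1 K ×ˢ range (n + H)).filter (fun x => n < S x.1 x.2 ∧ S x.1 (x.2 + 1) ≤ n + H)

lemma mem_D {K H n k i : ℕ} :
    (k, i) ∈ D K H n ↔ 1 ≤ k ∧ k ≤ K ∧ n < S k i ∧ S k (i + 1) ≤ n + H := by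
  simp only [D, mem_filter, mem_product, mem_Icc, mem_range]
  constructor
  · rintro ⟨⟨⟨h1, h2⟩, -⟩, h3, h4⟩
    exact ⟨h1, h2, h3, h4⟩
  · rintro ⟨h1, h2, h3, h4⟩
    refine ⟨⟨⟨h1, h2⟩, ?_⟩, h3, h4⟩
    have := (S_strictMono h1).le_apply (x := i + 1)
    omega

/-- the offset of the new prime -/
def off (n : ℕ) (x : ℕ × ℕ) : ℕ := x.1 * pr (x.2 + x.1) - n

lemma add_off {K H n : ℕ} {x : ℕ × ℕ} (hx : x ∈ D K H n) :
    n + off n x = x.1 * pr (x.2 + x.1) := by
  obtain ⟨k, i⟩ := x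
  obtain ⟨h1, h2, h3, h4⟩ := mem_D.1 hx
  have h5 := S_succ_le k i
  have h6 : S k i < S k (i + 1) := S_strictMono h1 (Nat.lt_succ_self i)
  simp only [off]
  omega

lemma off_le {K H n : ℕ} {x : ℕ × ℕ} (hx : x ∈ D K H n) : off n x ≤ (K + 1) * H := by
  obtain ⟨k, i⟩ := x
  obtain ⟨h1, h2, h3, h4⟩ := mem_D.1 hx
  have h5 := S_succ k i
  have h6 := mul_pr_le_S k i
  have h7 : S k i < S k (i + 1) := S_strictMono h1 (Nat.lt_succ_self i)
  have h8 : pr (i + k) ≤ pr i + H := by omega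
  have h9 : k * pr (i + k) ≤ k * pr i + K * H :=
    calc k * pr (i + k) ≤ k * (pr i + H) := Nat.mul_le_mul_left _ h8
      _ = k * pr i + k * H := by ring
      _ ≤ k * pr i + K * H := by gcongr
  simp only [off]
  have : (K + 1) * H = K * H + H := by ring
  rw [this]
  omega

lemma sqrt_lt_pr {K H N n : ℕ} (hKN : K ^ 2 ≤ N) (hn : N < n) {x : ℕ × ℕ} (hx : x ∈ D K H n) :
    Real.sqrt N < pr (x.2 + x.1) := by
  have h0 := add_off hx
  obtain ⟨k, i⟩ := x
  obtain ⟨h1, h2, h3, h4⟩ := mem_D.1 hx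
  simp only at h0 ⊢
  have hK : (K : ℝ) ≤ Real.sqrt N := Real.le_sqrt_of_sq_le (by exact_mod_cast hKN)
  have h5 : N < K * pr (i + k) := by
    have : k * pr (i + k) ≤ K * pr (i + k) := by gcongr
    omega
  have h6 : (N : ℝ) < K * pr (i + k) := by exact_mod_cast h5
  by_contra hc
  push Not at hc
  have : (K : ℝ) * pr (i + k) ≤ Real.sqrt N * Real.sqrt N := by gcongr
  rw [Real.mul_self_sqrt (Nat.cast_nonneg N)] at this
  linarith

lemma off_injOn {K H N n : ℕ} (hKN : K ^ 2 ≤ N) (hn : N < n) :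
    Set.InjOn (off n) (D K H n : Set (ℕ × ℕ)) := by
  rintro ⟨k, i⟩ hx ⟨l, j⟩ hy h
  have hx := mem_coe.1 hx
  have hy := mem_coe.1 hy
  have h1 := add_off hx
  have h2 := add_off hy
  have h3 := sqrt_lt_pr hKN hn hx
  simp only at h1 h2 h3
  have hK : (K : ℝ) ≤ Real.sqrt N := Real.le_sqrt_of_sq_le (by exact_mod_cast hKN)
  have h4 : K < pr (i + k) := by exact_mod_cast hK.trans_lt h3
  obtain ⟨a1, a2, -, -⟩ := mem_D.1 hx
  obtain ⟨b1, b2, -, -⟩ := mem_D.1 hy
  have h5 : k * pr (i + k) = l * pr (j + l) := by rw [← h1, ← h2, h]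
  have h6 : pr (i + k) ∣ l * pr (j + l) := h5 ▸ Dvd.intro_left k rfl
  rcases (pr_prime _).dvd_mul.1 h6 with h7 | h7
  · have := Nat.le_of_dvd b1 h7
    omega
  · have h8 := (Nat.prime_dvd_prime_iff_eq (pr_prime _) (pr_prime _)).1 h7
    have h9 := pr_strictMono.injective h8
    rw [← h8] at h5
    have := Nat.eq_of_mul_eq_mul_right (pr_prime _).pos h5
    subst this
    have : i = j := by omega
    rw [this]

lemma rough_off {K H N n W : ℕ} (hKN : K ^ 2 ≤ N) (hn : N < n) (hKW : K ≤ W) {w : ℝ}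
    (hw : w ≤ Real.sqrt N) {x : ℕ × ℕ} (hx : x ∈ D K H n) :
    Rough W w (x.1 * pr (x.2 + x.1)) := by
  have h3 := sqrt_lt_pr hKN hn hx
  obtain ⟨k, i⟩ := x
  obtain ⟨a1, a2, -, -⟩ := mem_D.1 hx
  intro p hp hWp hpw hd
  rcases hp.dvd_mul.1 hd with h | h
  · have : p ≤ k := Nat.le_of_dvd a1 h
    omega
  · have h8 := (Nat.prime_dvd_prime_iff_eq hp (pr_prime _)).1 h
    rw [← h8] at h3
    linarith

lemma rpow_le_sqrt {N m : ℕ} (hN : 1 ≤ N) (hm : 0 < m) :
    (N : ℝ) ^ ((1 : ℝ) / (8 * m)) ≤ Real.sqrt N := by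
  rw [Real.sqrt_eq_rpow]
  refine Real.rpow_le_rpow_of_exponent_le (by exact_mod_cast hN) ?_
  have : (1 : ℝ) ≤ m := by exact_mod_cast hm
  rw [div_le_div_iff₀ (by positivity) (by norm_num)]
  linarith

/-- first moment, one length -/
lemma sum_card_ge_one (K H N k a b : ℕ) (hk1 : 1 ≤ k) (hk : k ≤ K) (ha : N + H < k * pr a)
    (hb : ∀ i < b, k * pr (i + k) ≤ N + N) :
    (H : ℝ) * ((b : ℝ) - a) - 2 * N ≤
      ∑ i ∈ Ico a b, (((Ioc N (N + N)).filter (fun n => (k, i) ∈ D K H n)).card : ℝ) := by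
  rcases le_or_gt b a with hab | hab
  · have : (b : ℝ) - a ≤ 0 := by
      have : (b : ℝ) ≤ a := by exact_mod_cast hab
      linarith
    have h1 : (H : ℝ) * ((b : ℝ) - a) ≤ 0 := mul_nonpos_of_nonneg_of_nonpos (by positivity) this
    have h2 : (0 : ℝ) ≤ ∑ i ∈ Ico a b,
      (((Ioc N (N + N)).filter (fun n => (k, i) ∈ D K H n)).card : ℝ) := by positivity
    have : (0 : ℝ) ≤ N := by positivity
    linarith
  have h1 : ∀ i ∈ Ico a b, (H : ℝ) - ((S k (i + 1) : ℝ) - S k i) ≤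
      (((Ioc N (N + N)).filter (fun n => (k, i) ∈ D K H n)).card : ℝ) := by
    intro i hi
    obtain ⟨hi1, hi2⟩ := mem_Ico.1 hi
    have e1 : k * pr a ≤ k * pr i := Nat.mul_le_mul_left _ (pr_strictMono.monotone hi1)
    have e2 := mul_pr_le_S k i
    have e3 := S_succ_le k i
    have e4 := hb i hi2
    have e5 := S_strictMono hk1 (Nat.lt_succ_self i)
    simp only [Nat.succ_eq_add_one] at e5
    have hsub : Ico (S k (i + 1) - H) (S k i) ⊆
        (Ioc N (N + N)).filter (fun n => (k, i) ∈ D K H n) := by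
      intro n hn
      obtain ⟨hn1, hn2⟩ := mem_Ico.1 hn
      refine mem_filter.2 ⟨mem_Ioc.2 ⟨by omega, by omega⟩, mem_D.2 ⟨hk1, hk, hn2, by omega⟩⟩
    have hc := card_le_card hsub
    rw [Nat.card_Ico] at hc
    have : H + S k i ≤ S k (i + 1) +
        ((Ioc N (N + N)).filter (fun n => (k, i) ∈ D K H n)).card := by omega
    have : (H : ℝ) + S k i ≤ S k (i + 1) +
        (((Ioc N (N + N)).filter (fun n => (k, i) ∈ D K H n)).card : ℝ) := by exact_mod_cast this
    linarith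
  refine le_trans ?_ (Finset.sum_le_sum h1)
  rw [Finset.sum_sub_distrib, Finset.sum_Ico_sub (fun i => (S k i : ℝ)) hab.le, Finset.sum_const,
    Nat.card_Ico, nsmul_eq_mul, Nat.cast_sub hab.le]
  obtain ⟨c, rfl⟩ : ∃ c, b = c + 1 := ⟨b - 1, by omega⟩
  have e3 := S_succ_le k c
  have e4 := hb c (by omega)
  have e5 : (S k (c + 1) : ℝ) ≤ N + N := by exact_mod_cast e3.trans e4
  have : (0 : ℝ) ≤ S k a := by positivity
  nlinarith

lemma sum_card_D_ge (K H N : ℕ) (a b : ℕ → ℕ)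
    (ha : ∀ k ∈ Icc 1 K, N + H < k * pr (a k))
    (hb : ∀ k ∈ Icc 1 K, ∀ i < b k, k * pr (i + k) ≤ N + N) :
    ∑ k ∈ Icc 1 K, ((H : ℝ) * ((b k : ℝ) - a k) - 2 * N) ≤
      ∑ n ∈ Ioc N (N + N), ((D K H n).card : ℝ) := by
  calc _ ≤ ∑ k ∈ Icc 1 K, ∑ i ∈ Ico (a k) (b k),
        (((Ioc N (N + N)).filter (fun n => (k, i) ∈ D K H n)).card : ℝ) :=
        Finset.sum_le_sum fun k hk =>
          sum_card_ge_one K H N k _ _ (mem_Icc.1 hk).1 (mem_Icc.1 hk).2 (ha k hk) (hb k hk)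
    _ = ∑ n ∈ Ioc N (N + N), ∑ k ∈ Icc 1 K, ∑ i ∈ Ico (a k) (b k),
        (if (k, i) ∈ D K H n then (1 : ℝ) else 0) := by
        simp_rw [card_filter]
        push_cast
        rw [Finset.sum_comm (s := Ioc N (N + N))]
        refine Finset.sum_congr rfl fun k _ => ?_
        rw [Finset.sum_comm]
    _ ≤ _ := by
        refine Finset.sum_le_sum fun n _ => ?_
        rw [Finset.sum_sigma', ← Finset.sum_filter, Finset.sum_const, nsmul_eq_mul, mul_one]
        refine Nat.cast_le.2 (card_le_card_of_injOn (fun x => (x.1, x.2)) ?_ ?_)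
        · intro x hx
          exact (mem_filter.1 hx).2
        · rintro ⟨k, i⟩ - ⟨l, j⟩ - h
          simp only [Prod.mk.injEq] at h
          obtain ⟨rfl, rfl⟩ := h
          rfl

open Classical in
/-- second moment -/
lemma sum_sq_le (K H N W : ℕ) (hKN : K ^ 2 ≤ N) (hN : 2 ≤ N) (hW2 : 2 ≤ W) (hKW : K ≤ W)
    (hW : (K + 1) * H < W) :
    ∑ n ∈ Ioc N (N + N), ((D K H n).offDiag.card : ℝ) ≤
      (W : ℝ) ^ 2 * (N * (16 * Real.exp 73 * Real.log W / Real.log N) ^ 2 + Real.sqrt N) := by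
  set w : ℝ := (N : ℝ) ^ ((1 : ℝ) / (8 * (2 : ℕ))) with hw
  have hws : w ≤ Real.sqrt N := rpow_le_sqrt (by omega) (by norm_num)
  have h1 : ∀ n ∈ Ioc N (N + N), ((D K H n).offDiag.card : ℝ) ≤
      ∑ y ∈ (range W).offDiag, (if Rough W w (n + y.1) ∧ Rough W w (n + y.2) then (1 : ℝ)
        else 0) := by
    intro n hn
    have hn1 := (mem_Ioc.1 hn).1
    rw [← Finset.sum_filter, Finset.sum_const, nsmul_eq_mul, mul_one]
    refine Nat.cast_le.2 (card_le_card_of_injOn (fun x => (off n x.1, off n x.2)) ?_ ?_)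
    · rintro ⟨x, y⟩ hxy
      obtain ⟨hx, hy, hne⟩ := mem_offDiag.1 (mem_coe.1 hxy)
      simp only at hx hy hne
      refine mem_coe.2 (mem_filter.2 ⟨mem_offDiag.2 ⟨?_, ?_, ?_⟩, ?_, ?_⟩)
      · exact mem_range.2 ((off_le hx).trans_lt hW)
      · exact mem_range.2 ((off_le hy).trans_lt hW)
      · exact fun h => hne (off_injOn hKN hn1 hx hy h)
      · simp only [add_off hx]; exact rough_off hKN hn1 hKW hws hx
      · simp only [add_off hy]; exact rough_off hKN hn1 hKW hws hy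
    · rintro ⟨x, y⟩ hxy ⟨x', y'⟩ hxy' h
      obtain ⟨hx, hy, -⟩ := mem_offDiag.1 (mem_coe.1 hxy)
      obtain ⟨hx', hy', -⟩ := mem_offDiag.1 (mem_coe.1 hxy')
      simp only [Prod.mk.injEq] at h
      exact Prod.ext (off_injOn hKN hn1 hx hx' h.1) (off_injOn hKN hn1 hy hy' h.2)
  refine (Finset.sum_le_sum h1).trans ?_
  rw [Finset.sum_comm]
  have h2 : ∀ y ∈ (range W).offDiag, ∑ n ∈ Ioc N (N + N),
      (if Rough W w (n + y.1) ∧ Rough W w (n + y.2) then (1 : ℝ) else 0) ≤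
      N * (16 * Real.exp 73 * Real.log W / Real.log N) ^ 2 + Real.sqrt N := by
    rintro ⟨e, e'⟩ hy
    obtain ⟨he, he', hne⟩ := mem_offDiag.1 hy
    simp only at he he' hne
    have hc : ({e, e'} : Finset ℕ).card = 2 := card_pair hne
    have := sieve_shifts {e, e'} W hW2 (by
      intro x hx
      rcases mem_insert.1 hx with rfl | hx
      · exact mem_range.1 he
      · rw [mem_singleton.1 hx]; exact mem_range.1 he') (by omega) N hN
    rw [hc] at this
    rw [← Finset.sum_filter, Finset.sum_const, nsmul_eq_mul, mul_one]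
    refine le_trans (Nat.cast_le.2 (card_le_card fun n hn => ?_)) (this.trans (le_of_eq ?_))
    · rw [mem_filter] at hn ⊢
      refine ⟨hn.1, fun x hx => ?_⟩
      rcases mem_insert.1 hx with rfl | hx
      · exact hn.2.1
      · rw [mem_singleton.1 hx]; exact hn.2.2
    · push_cast; ring
  refine (Finset.sum_le_sum h2).trans ?_
  rw [Finset.sum_const, nsmul_eq_mul]
  have hlW : 0 ≤ Real.log W := Real.log_natCast_nonneg W
  have hlN : 0 ≤ Real.log N := Real.log_natCast_nonneg N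
  gcongr
  rw [offDiag_card, card_range]
  have : W * W - W ≤ W ^ 2 := by rw [sq]; omega
  exact_mod_cast this

end Pool.Agent.Work.MP_9a1701_nt
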