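import Pool.Agent.Work.MP_9a1701_nt.Encode

/-!
# The entropy inequality with explicit parameters
-/

noncomputable section

open Finset

namespace Pool.Agent.Work.MP_9a1701_nt

/-- admissible parameters -/
structure Par (K N : ℕ) : Prop where
  hK : 10000 ≤ K
  hN : 2 ≤ N
  hlog : 1040 * Real.exp 73 * Real.log K ≤ K
  hL1 : (K : ℝ) ^ 60 ≤ Real.log N
  hL2 : Real.log N ≤ 2 * (K : ℝ) ^ 60

namespace Par

variable {K N : ℕ} (h : Par K N)
include h

lemma K_ge : (10000 : ℝ) ≤ K := by exact_mod_cast h.hK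

lemma K_pos : (0 : ℝ) < K := by have := h.K_ge; linarith only [this]

lemma one_le_K : (1 : ℝ) ≤ K := by have := h.K_ge; linarith

lemma N_pos : (0 : ℝ) < N := by have := h.hN; positivity

lemma logN_pos : 0 < Real.log N := lt_of_lt_of_le (pow_pos h.K_pos 60) h.hL1

lemma one_le_logK : 1 ≤ Real.log K := by
  rw [Real.le_log_iff_exp_le h.K_pos]
  have := Real.exp_one_lt_d9
  have := h.K_ge
  linarith

lemma pow_le_sqrt (r : ℕ) (hr : r ≤ 48 * K ^ 10) : (K : ℝ) ^ r ≤ Real.sqrt N := by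
  have hK := h.K_pos
  have h1 : (K : ℝ) ^ r = Real.exp (r * Real.log K) := by
    rw [Real.exp_nat_mul, Real.exp_log hK]
  have h2 : Real.sqrt N = Real.exp (Real.log N / 2) := by
    rw [Real.sqrt_eq_rpow, Real.rpow_def_of_pos h.N_pos]; congr 1; ring
  rw [h1, h2]
  refine Real.exp_le_exp.2 ?_
  have h3 : Real.log K ≤ K := (Real.log_le_sub_one_of_pos hK).trans (by linarith only [])
  have h4 : (r : ℝ) ≤ 48 * (K : ℝ) ^ 10 := by exact_mod_cast hr
  have h5 : (r : ℝ) * Real.log K ≤ 48 * (K : ℝ) ^ 10 * K := by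
    have := h.one_le_logK
    gcongr
  have h6 : (96 : ℝ) ≤ (K : ℝ) ^ 49 := by
    have : (K : ℝ) ^ 1 ≤ (K : ℝ) ^ 49 := pow_le_pow_right₀ h.one_le_K (by norm_num)
    have := h.K_ge
    rw [pow_one] at *
    linarith
  have h7 : 96 * (K : ℝ) ^ 11 ≤ (K : ℝ) ^ 60 := by
    calc 96 * (K : ℝ) ^ 11 ≤ (K : ℝ) ^ 49 * (K : ℝ) ^ 11 := by gcongr
      _ = _ := by ring
  have := h.hL1
  have e : 48 * (K : ℝ) ^ 10 * K = 96 * (K : ℝ) ^ 11 / 2 := by ring
  linarith only [h5, h7, this]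

lemma pow_le_sqrt' (r : ℕ) (hr : r ≤ 200) : (K : ℝ) ^ r ≤ Real.sqrt N := by
  refine h.pow_le_sqrt r (hr.trans ?_)
  have : K ^ 1 ≤ K ^ 10 := Nat.pow_le_pow_right (by have := h.hK; omega) (by norm_num)
  have := h.hK
  rw [pow_one] at *
  omega

lemma sqrt_le : Real.sqrt N ≤ N := by
  rw [Real.sqrt_le_left h.N_pos.le]
  have : (1 : ℝ) ≤ N := by have := h.hN; exact_mod_cast (by omega : 1 ≤ N)
  nlinarith

lemma pow_le (r : ℕ) (hr : r ≤ 200) : K ^ r ≤ N := by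
  exact_mod_cast (h.pow_le_sqrt' r hr).trans h.sqrt_le

lemma W_two : 2 ≤ K ^ 65 := by
  have : K ^ 1 ≤ K ^ 65 := Nat.pow_le_pow_right (by have := h.hK; omega) (by norm_num)
  have := h.hK
  rw [pow_one] at *
  omega

lemma K_le_W : K ≤ K ^ 65 := by
  have : K ^ 1 ≤ K ^ 65 := Nat.pow_le_pow_right (by have := h.hK; omega) (by norm_num)
  rwa [pow_one] at this

lemma H_lt_W : (K + 1) * K ^ 63 < K ^ 65 := by
  have h1 : 0 < K ^ 63 := pow_pos (by have := h.hK; omega) _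
  have h2 : K + 1 < K * K := by have := h.hK; nlinarith only [this]
  calc (K + 1) * K ^ 63 < (K * K) * K ^ 63 := Nat.mul_lt_mul_of_pos_right h2 h1
    _ = _ := by ring

lemma tail_le :
    ∑ n ∈ (Ioc N (N + N)).filter (fun n => K ^ 10 < (D K (K ^ 63) n).card),
      ((D K (K ^ 63) n).card : ℝ) ≤ ((K : ℝ) ^ 2 + 1) * N := by
  have h1 := sum_sq_le K (K ^ 63) N (K ^ 65) (h.pow_le 2 (by norm_num)) h.hN h.W_two h.K_le_W
    h.H_lt_W
  have hK := h.K_pos
  have h2 : (K : ℝ) ^ 10 * ∑ n ∈ (Ioc N (N + N)).filter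
      (fun n => K ^ 10 < (D K (K ^ 63) n).card), ((D K (K ^ 63) n).card : ℝ) ≤
      ∑ n ∈ Ioc N (N + N), ((D K (K ^ 63) n).offDiag.card : ℝ) := by
    rw [Finset.mul_sum]
    refine le_trans (Finset.sum_le_sum fun n hn => ?_)
      (Finset.sum_le_sum_of_subset_of_nonneg (filter_subset _ _) (fun _ _ _ => by positivity))
    have hn2 := (mem_filter.1 hn).2
    rw [offDiag_card]
    set t := (D K (K ^ 63) n).card
    have : K ^ 10 * t ≤ t * t - t := by
      have : (K ^ 10 + 1) * t ≤ t * t := Nat.mul_le_mul_right _ hn2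
      rw [add_mul, one_mul] at this
      omega
    exact_mod_cast this
  have h3 : 16 * Real.exp 73 * Real.log ((K ^ 65 : ℕ) : ℝ) / Real.log N ≤ K / (K : ℝ) ^ 60 := by
    push_cast
    rw [Real.log_pow]
    have := h.hlog
    have := h.hL1
    have := h.one_le_logK
    gcongr
    push_cast
    linarith
  have h4 : (0 : ℝ) ≤ 16 * Real.exp 73 * Real.log ((K ^ 65 : ℕ) : ℝ) / Real.log N := by
    have := Real.log_natCast_nonneg (K ^ 65)
    have := h.logN_pos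
    positivity
  have h5 : (K : ℝ) ^ 120 * Real.sqrt N ≤ N := by
    have := h.pow_le_sqrt' 120 (by norm_num)
    calc _ ≤ Real.sqrt N * Real.sqrt N := by gcongr
      _ = N := Real.mul_self_sqrt h.N_pos.le
  have h6 : (((K ^ 65 : ℕ) : ℝ)) ^ 2 * (N * (16 * Real.exp 73 * Real.log ((K ^ 65 : ℕ) : ℝ) /
      Real.log N) ^ 2 + Real.sqrt N) ≤ (K : ℝ) ^ 10 * (((K : ℝ) ^ 2 + 1) * N) := by
    calc _ ≤ (((K ^ 65 : ℕ) : ℝ)) ^ 2 * (N * (K / (K : ℝ) ^ 60) ^ 2 + Real.sqrt N) := by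
          gcongr
      _ = (K : ℝ) ^ 10 * ((K : ℝ) ^ 2 * N + (K : ℝ) ^ 120 * Real.sqrt N) := by
          push_cast; field_simp
      _ ≤ (K : ℝ) ^ 10 * ((K : ℝ) ^ 2 * N + N) := by gcongr
      _ = _ := by ring
  exact le_of_mul_le_mul_left (h2.trans (h1.trans h6)) (pow_pos hK 10)

lemma class_small (t u : ℕ) (ht : t ≤ K ^ 10) (hu : 8 * u ≤ t) (ht2 : 132 * K ^ 2 ≤ t) :
    (((Ioc N (N + N)).filter
      (fun n => (D K (K ^ 63) n).card = t ∧ (V (K ^ 63) n).card = u)).card : ℝ) ≤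
      2 * N / (K : ℝ) ^ 40 := by
  have hK := h.K_pos
  have hK1 : 1 ≤ K := by have := h.hK; omega
  have hK2 : 1 ≤ K ^ 2 := Nat.one_le_pow _ _ hK1
  have h1 := class_le K (K ^ 63) N (K ^ 65) t u (h.pow_le 2 (by norm_num)) h.hN h.W_two h.K_le_W
    h.H_lt_W (by omega)
  have h2 : (K ^ 63) ^ u * (K * t * u ^ 2) ^ t * (2 * K ^ 65) ^ ((K + 1) * K) ≤ K ^ (40 * t) := by
    have a1 : (K ^ 63) ^ u ≤ K ^ (8 * t) := by
      rw [← pow_mul]; exact Nat.pow_le_pow_right hK1 (by omega)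
    have a2 : (K * t * u ^ 2) ^ t ≤ K ^ (31 * t) := by
      rw [pow_mul]
      refine Nat.pow_le_pow_left ?_ _
      have : u ≤ K ^ 10 := by omega
      calc K * t * u ^ 2 ≤ K * K ^ 10 * (K ^ 10) ^ 2 := by gcongr
        _ = _ := by ring
    have a3 : (2 * K ^ 65) ^ ((K + 1) * K) ≤ K ^ t := by
      have b1 : 2 * K ^ 65 ≤ K ^ 66 := by
        rw [pow_succ K 65, mul_comm]; exact Nat.mul_le_mul_left _ (by have := h.hK; omega)
      calc _ ≤ (K ^ 66) ^ ((K + 1) * K) := Nat.pow_le_pow_left b1 _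
        _ = K ^ (66 * ((K + 1) * K)) := by rw [← pow_mul]
        _ ≤ K ^ t := Nat.pow_le_pow_right hK1 (by nlinarith only [ht2, hK1])
    calc _ ≤ K ^ (8 * t) * K ^ (31 * t) * K ^ t := by gcongr
      _ = _ := by rw [← pow_add, ← pow_add]; congr 1; ring
  have h3 : 8 * Real.exp 73 * t * Real.log ((K ^ 65 : ℕ) : ℝ) / Real.log N ≤
      1 / (K : ℝ) ^ 48 := by
    push_cast
    rw [Real.log_pow]
    have e1 := h.hlog
    have e2 := h.hL1
    have e3 := h.one_le_logK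
    have e4 : (t : ℝ) ≤ (K : ℝ) ^ 10 := by exact_mod_cast ht
    have e5 : 8 * Real.exp 73 * t * (((65 : ℕ) : ℝ) * Real.log K) ≤ (K : ℝ) ^ 12 := by
      have e6 : (K : ℝ) ≤ (K : ℝ) ^ 2 := by have := h.one_le_K; linarith only [this, mul_nonneg_of_nonpos_of_nonpos (Mathlib.Tactic.Linarith.sub_nonpos_of_le (Mathlib.Tactic.Linarith.natCast_nonneg ℝ K)) (Mathlib.Tactic.Linarith.sub_nonpos_of_le this)]
      have e7 : 0 < Real.exp 73 * Real.log K := by positivity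
      calc _ = (520 * Real.exp 73 * Real.log K) * t := by push_cast; ring
        _ ≤ (K : ℝ) ^ 2 * (K : ℝ) ^ 10 := by
            gcongr
            linarith only [e1, e6, e7]
        _ = _ := by ring
    calc _ ≤ (K : ℝ) ^ 12 / (K : ℝ) ^ 60 := by gcongr
      _ = _ := by field_simp
  have h4 : (0 : ℝ) ≤ 8 * Real.exp 73 * t * Real.log ((K ^ 65 : ℕ) : ℝ) / Real.log N := by
    have := Real.log_natCast_nonneg (K ^ 65)
    have := h.logN_pos
    positivity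
  have h5 : Real.sqrt N ≤ N * (1 / (K : ℝ) ^ 48) ^ t := by
    have := h.pow_le_sqrt (48 * t) (by omega)
    rw [one_div, inv_pow, ← pow_mul, ← div_eq_mul_inv, le_div_iff₀ (by positivity)]
    calc _ ≤ Real.sqrt N * Real.sqrt N := by gcongr
      _ = N := Real.mul_self_sqrt h.N_pos.le
  refine h1.trans ?_
  have h6 : (((K ^ 63) ^ u * (K * t * u ^ 2) ^ t * (2 * K ^ 65) ^ ((K + 1) * K) : ℕ) : ℝ) ≤
      (K : ℝ) ^ (40 * t) := by exact_mod_cast h2
  calc _ ≤ (K : ℝ) ^ (40 * t) * (N * (1 / (K : ℝ) ^ 48) ^ t + N * (1 / (K : ℝ) ^ 48) ^ t) := by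
        gcongr
    _ = 2 * N / (K : ℝ) ^ (8 * t) := by
        rw [one_div, inv_pow, ← pow_mul, show 48 * t = 40 * t + 8 * t by ring, pow_add]
        field_simp
        ring
    _ ≤ _ := by
        have := h.one_le_K
        gcongr
        omega

theorem entropy (μ : ℝ) (hμ : (K : ℝ) ^ 3 / 16 ≤ μ)
    (hsum : μ * N ≤ ∑ n ∈ Ioc N (N + N), ((D K (K ^ 63) n).card : ℝ)) :
    μ * N / 32 ≤ ∑ n ∈ Ioc N (N + N), ((V (K ^ 63) n).card : ℝ) := by
  by_contra hc
  push Not at hc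
  have hK := h.K_ge
  have hN := h.N_pos
  set t : ℕ → ℕ := fun n => (D K (K ^ 63) n).card with ht
  set u : ℕ → ℕ := fun n => (V (K ^ 63) n).card with hu
  set G := (Ioc N (N + N)).filter (fun n => t n ≤ K ^ 10 ∧ μ / 4 + 8 * u n ≤ t n) with hG
  have hK3 : 64 * ((K : ℝ) ^ 2 + 1) ≤ (K : ℝ) ^ 3 := by linarith only [hK, sq_nonneg (K : ℝ), mul_nonneg_of_nonpos_of_nonpos (Mathlib.Tactic.Linarith.sub_nonpos_of_le (sq_nonneg ↑K)) (Mathlib.Tactic.Linarith.sub_nonpos_of_le hK), mul_nonneg_of_nonpos_of_nonpos (Mathlib.Tactic.Linarith.sub_nonpos_of_le (Mathlib.Tactic.Linarith.natCast_nonneg ℝ K)) (Mathlib.Tactic.Linarith.sub_nonpos_of_le hK)]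
  have hK4 : 64 * (132 * (K : ℝ) ^ 2) ≤ (K : ℝ) ^ 3 := by linarith only [hK3, hK, sq_nonneg (K : ℝ), mul_nonneg_of_nonpos_of_nonpos (Mathlib.Tactic.Linarith.sub_nonpos_of_le (sq_nonneg ↑K)) (Mathlib.Tactic.Linarith.sub_nonpos_of_le hK)]
  have hK2 : (0 : ℝ) < (K : ℝ) ^ 2 := by positivity
  have htail : ∑ n ∈ (Ioc N (N + N)).filter (fun n => K ^ 10 < t n), (t n : ℝ) ≤ μ * N / 4 := by
    refine h.tail_le.trans ?_
    have : (K : ℝ) ^ 2 + 1 ≤ μ / 4 := by linarith only [hμ, hK3]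
    linarith only [hμ, hK3, mul_nonneg_of_nonpos_of_nonpos (Mathlib.Tactic.Linarith.sub_nonpos_of_le (Mathlib.Tactic.Linarith.natCast_nonneg ℝ N)) (Mathlib.Tactic.Linarith.sub_nonpos_of_le hμ), mul_nonneg_of_nonpos_of_nonpos (Mathlib.Tactic.Linarith.sub_nonpos_of_le (Mathlib.Tactic.Linarith.natCast_nonneg ℝ N)) (Mathlib.Tactic.Linarith.sub_nonpos_of_le hK3)]
  have hpt : ∀ n ∈ Ioc N (N + N), (t n : ℝ) ≤ (if K ^ 10 < t n then (t n : ℝ) else 0) +
      (if t n ≤ K ^ 10 ∧ μ / 4 + 8 * u n ≤ t n then (K : ℝ) ^ 10 else 0) + (μ / 4 + 8 * u n) := by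
    intro n _
    have e0 : (0 : ℝ) ≤ μ / 4 + 8 * u n := by
      have : (0 : ℝ) ≤ u n := by positivity
      linarith only [hμ, hK4, hK2]
    by_cases a1 : K ^ 10 < t n
    · rw [if_pos a1, if_neg (fun hh => absurd hh.1 (not_le.2 a1))]; linarith only [hμ, hK4, hK2]
    · rw [if_neg a1]
      split_ifs with a2
      · have : (t n : ℝ) ≤ (K : ℝ) ^ 10 := by exact_mod_cast a2.1
        linarith only [hμ, hK4, hK2, this]
      · have := not_and.1 a2 (not_lt.1 a1)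
        linarith only [this]
  have hs := Finset.sum_le_sum hpt
  rw [Finset.sum_add_distrib, Finset.sum_add_distrib, ← Finset.sum_filter, ← Finset.sum_filter,
    Finset.sum_const, Finset.sum_add_distrib, Finset.sum_const, ← Finset.mul_sum, ← hG,
    Nat.card_Ioc, Nat.add_sub_cancel_left, nsmul_eq_mul, nsmul_eq_mul] at hs
  have hG1 : μ * N / 4 ≤ G.card * (K : ℝ) ^ 10 := by linarith only [hsum, hc, htail, hs]
  have hmaps : Set.MapsTo (fun n => (t n, u n)) G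
      (range (K ^ 10 + 1) ×ˢ range (K ^ 10 + 1) : Finset (ℕ × ℕ)) := by
    intro n hn
    obtain ⟨-, a1, a2⟩ := mem_filter.1 (mem_coe.1 hn)
    have : (8 : ℝ) * u n ≤ t n := by linarith only [hμ, hK4, hK2, a2]
    have : 8 * u n ≤ t n := by exact_mod_cast this
    exact mem_coe.2 (mem_product.2 ⟨mem_range.2 (by simp only; omega),
      mem_range.2 (by simp only; omega)⟩)
  have hG2 : (G.card : ℝ) ≤ ((K : ℝ) ^ 10 + 1) ^ 2 * (2 * N / (K : ℝ) ^ 40) := by
    rw [card_eq_sum_card_fiberwise hmaps]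
    push_cast
    have hfib : ∀ z ∈ (range (K ^ 10 + 1) ×ˢ range (K ^ 10 + 1) : Finset (ℕ × ℕ)),
        ((G.filter (fun n => (t n, u n) = z)).card : ℝ) ≤ 2 * N / (K : ℝ) ^ 40 := by
      rintro ⟨a, b⟩ _
      rcases (G.filter (fun n => (t n, u n) = (a, b))).eq_empty_or_nonempty with e | e
      · rw [e, card_empty, Nat.cast_zero]; positivity
      obtain ⟨n0, hn0⟩ := e
      obtain ⟨e1, e2⟩ := mem_filter.1 hn0
      obtain ⟨-, a1, a2⟩ := mem_filter.1 e1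
      simp only [Prod.mk.injEq] at e2
      rw [e2.1, e2.2] at a2
      rw [e2.1] at a1
      have b0 : (0 : ℝ) ≤ b := by positivity
      have b1 : (8 : ℝ) * b ≤ a := by linarith only [hμ, hK4, hK2, a2]
      have b2 : 132 * (K : ℝ) ^ 2 ≤ a := by linarith only [hμ, hK4, a2]
      refine le_trans (Nat.cast_le.2 (card_le_card fun n hn => ?_))
        (h.class_small a b a1 (by exact_mod_cast b1) (by exact_mod_cast b2))
      obtain ⟨c1, c2⟩ := mem_filter.1 hn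
      simp only [Prod.mk.injEq] at c2
      exact mem_filter.2 ⟨(mem_filter.1 c1).1, c2⟩
    refine (Finset.sum_le_sum hfib).trans (le_of_eq ?_)
    rw [Finset.sum_const, card_product, card_range, nsmul_eq_mul]
    push_cast
    ring
  have hK10 : (10000 : ℝ) ≤ (K : ℝ) ^ 10 := by
    have : (K : ℝ) ^ 1 ≤ (K : ℝ) ^ 10 := pow_le_pow_right₀ h.one_le_K (by norm_num)
    rw [pow_one] at this
    linarith only [hK, this]
  set X := (K : ℝ) ^ 10 with hX
  have hX40 : (K : ℝ) ^ 40 = X ^ 4 := by rw [hX]; ring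
  rw [hX40] at hG2
  have hμ4 : 4 ≤ μ := by linarith only [hμ, hK3, hK2]
  have e1 : (N : ℝ) ≤ G.card * X := by linarith only [hsum, hc, htail, hs, hμ, hK3, mul_nonneg_of_nonpos_of_nonpos (Mathlib.Tactic.Linarith.sub_nonpos_of_le (sq_nonneg ↑K)) (Mathlib.Tactic.Linarith.sub_nonpos_of_le (Mathlib.Tactic.Linarith.natCast_nonneg ℝ N)), mul_nonneg_of_nonpos_of_nonpos (Mathlib.Tactic.Linarith.sub_nonpos_of_le (Mathlib.Tactic.Linarith.natCast_nonneg ℝ N)) (Mathlib.Tactic.Linarith.sub_nonpos_of_le hμ), mul_nonneg_of_nonpos_of_nonpos (Mathlib.Tactic.Linarith.sub_nonpos_of_le (Mathlib.Tactic.Linarith.natCast_nonneg ℝ N)) (Mathlib.Tactic.Linarith.sub_nonpos_of_le hK3)]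
  have e2 : (G.card : ℝ) * X ≤ (X + 1) ^ 2 * (2 * N / X ^ 4) * X := by gcongr
  have e3 : (X + 1) ^ 2 * (2 * N / X ^ 4) * X = N * (2 * (X + 1) ^ 2 / X ^ 3) := by
    field_simp
  have e4 : 2 * (X + 1) ^ 2 / X ^ 3 < 1 := by
    rw [div_lt_one (by positivity)]
    linarith only [hK10, sq_nonneg X, sq_nonneg X, mul_nonneg_of_nonpos_of_nonpos (Mathlib.Tactic.Linarith.sub_nonpos_of_le (sq_nonneg (X + (1 : ℝ)))) (Mathlib.Tactic.Linarith.sub_nonpos_of_le hK10)]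
  linarith only [hsum, hc, htail, hs, e2, e3, hμ, hK3, e4, mul_nonneg_of_nonpos_of_nonpos (Mathlib.Tactic.Linarith.sub_nonpos_of_le (sq_nonneg ↑K)) (Mathlib.Tactic.Linarith.sub_nonpos_of_le (Mathlib.Tactic.Linarith.natCast_nonneg ℝ N)), mul_nonneg_of_nonpos_of_nonpos (Mathlib.Tactic.Linarith.sub_nonpos_of_le (Mathlib.Tactic.Linarith.natCast_nonneg ℝ N)) (Mathlib.Tactic.Linarith.sub_nonpos_of_le hμ), mul_nonneg_of_nonpos_of_nonpos (Mathlib.Tactic.Linarith.sub_nonpos_of_le (Mathlib.Tactic.Linarith.natCast_nonneg ℝ N)) (Mathlib.Tactic.Linarith.sub_nonpos_of_le hK3), mul_nonneg_of_nonpos_of_nonpos (Mathlib.Tactic.Linarith.sub_nonpos_of_le (Mathlib.Tactic.Linarith.natCast_nonneg ℝ N)) (le_of_lt (Mathlib.Tactic.Linarith.sub_neg_of_lt e4))]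

end Par

end Pool.Agent.Work.MP_9a1701_nt
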