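import Pool.Agent.Work.MP_9a1701_nt.Basic

/-!
# Encoding the new primes by the representable integers in the window
-/

noncomputable section

open Finset

namespace Pool.Agent.Work.MP_9a1701_nt

/-- sums of consecutive primes -/
def U : Set ℕ := {m | ∃ k i, 1 ≤ k ∧ m = S k i}

open Classical in
/-- representable integers in the window, shifted -/
def V (H n : ℕ) : Finset ℕ := (Icc 1 H).filter (fun v => n + v ∈ U)

/-- first index with block sum exceeding `n` -/
def i0 (k n : ℕ) : ℕ := sInf {i | n < S k i}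

lemma lt_S_iff {k : ℕ} (hk : 1 ≤ k) (n i : ℕ) : n < S k i ↔ i0 k n ≤ i := by
  constructor
  · intro h
    exact Nat.sInf_le h
  · intro h
    have hne : {i | n < S k i}.Nonempty :=
      ⟨n + 1, lt_of_lt_of_le (Nat.lt_succ_self n) (S_strictMono hk).le_apply⟩
    have h1 : n < S k (i0 k n) := Nat.sInf_mem hne
    exact h1.trans_le ((S_strictMono hk).monotone h)

lemma i0_le {K H n k i : ℕ} (h : (k, i) ∈ D K H n) : i0 k n ≤ i := by
  obtain ⟨h1, -, h3, -⟩ := mem_D.1 h
  exact (lt_S_iff h1 n i).1 h3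

lemma D_down {K H n k i i' : ℕ} (h : (k, i) ∈ D K H n) (h1 : i0 k n ≤ i') (h2 : i' ≤ i) :
    (k, i') ∈ D K H n := by
  obtain ⟨a1, a2, -, a4⟩ := mem_D.1 h
  refine mem_D.2 ⟨a1, a2, (lt_S_iff a1 n i').2 h1, le_trans ?_ a4⟩
  exact (S_strictMono a1).monotone (by omega)

lemma sub_i0_lt {K H n k i : ℕ} (h : (k, i) ∈ D K H n) : i - i0 k n < (D K H n).card := by
  have h0 := i0_le h
  have : ((Icc (i0 k n) i).image (fun j => (k, j))) ⊆ D K H n := by
    intro x hx
    obtain ⟨j, hj, rfl⟩ := mem_image.1 hx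
    exact D_down h (mem_Icc.1 hj).1 (mem_Icc.1 hj).2
  have hc := card_le_card this
  rw [card_image_of_injective _ (fun a b h => (Prod.mk.inj h).2), Nat.card_Icc] at hc
  omega

/-- labels -/
def lab (n : ℕ) (x : ℕ × ℕ) : ℕ × ℕ × ℕ × ℕ :=
  (x.1, x.2 - i0 x.1 n, S x.1 x.2 - n, S x.1 (x.2 + 1) - n)

/-- labelled window -/
def B (K H n : ℕ) : Finset (ℕ × ℕ × ℕ × ℕ) := (D K H n).image (lab n)

lemma card_B (K H n : ℕ) : (B K H n).card = (D K H n).card := by
  refine card_image_of_injOn ?_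
  rintro ⟨k, i⟩ hx ⟨l, j⟩ hy h
  have h1 := i0_le (mem_coe.1 hx)
  have h2 := i0_le (mem_coe.1 hy)
  simp only [lab, Prod.mk.injEq] at h
  obtain ⟨rfl, h3, -⟩ := h
  have : i = j := by omega
  rw [this]

lemma B_subset (K H n : ℕ) :
    B K H n ⊆ Icc 1 K ×ˢ range (D K H n).card ×ˢ V H n ×ˢ V H n := by
  intro y hy
  obtain ⟨⟨k, i⟩, hx, rfl⟩ := mem_image.1 hy
  obtain ⟨a1, a2, a3, a4⟩ := mem_D.1 hx
  have h6 : S k i < S k (i + 1) := S_strictMono a1 (Nat.lt_succ_self i)
  simp only [lab, mem_product, mem_Icc, mem_range, V, mem_filter]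
  refine ⟨⟨a1, a2⟩, sub_i0_lt hx, ⟨⟨by omega, by omega⟩, k, i, a1, by omega⟩,
    ⟨⟨by omega, by omega⟩, k, i + 1, a1, by omega⟩⟩

lemma B_eq {K H n n' k j : ℕ} (hB : B K H n = B K H n') (h : (k, i0 k n + j) ∈ D K H n) :
    (k, i0 k n' + j) ∈ D K H n' ∧ S k (i0 k n + j) + n' = S k (i0 k n' + j) + n ∧
      S k (i0 k n + j + 1) + n' = S k (i0 k n' + j + 1) + n := by
  have h1 : lab n (k, i0 k n + j) ∈ B K H n' := hB ▸ mem_image_of_mem _ h
  obtain ⟨⟨l, i⟩, hx, he⟩ := mem_image.1 h1
  have h2 := i0_le hx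
  simp only [lab, Prod.mk.injEq] at he
  obtain ⟨rfl, e2, e3, e4⟩ := he
  have : i = i0 l n' + j := by omega
  subst this
  obtain ⟨a1, -, a3, -⟩ := mem_D.1 h
  obtain ⟨-, -, b3, -⟩ := mem_D.1 hx
  have h6 : S l (i0 l n + j) < S l (i0 l n + j + 1) := S_strictMono a1 (Nat.lt_succ_self _)
  have h7 : S l (i0 l n' + j) < S l (i0 l n' + j + 1) := S_strictMono a1 (Nat.lt_succ_self _)
  refine ⟨hx, by omega, by omega⟩

/-- the first block of each length -/
def init (K H W n : ℕ) (y : Fin (K + 1) × Fin K) : ℕ :=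
  if (y.2 : ℕ) < y.1 ∧ ((y.1 : ℕ), i0 y.1 n) ∈ D K H n then y.1 * pr (i0 y.1 n + y.2) + W - n
  else 0

lemma init_bounds {K H W n k i j : ℕ} (hW : (K + 1) * H < W) (h : (k, i) ∈ D K H n)
    (hj : j < k) : n ≤ k * pr (i + j) + W ∧ k * pr (i + j) < n + W := by
  have h1 := add_off h
  have h2 := off_le h
  simp only at h1
  obtain ⟨a1, a2, a3, a4⟩ := mem_D.1 h
  have h5 := S_succ k i
  have h7 : S k i < S k (i + 1) := S_strictMono a1 (Nat.lt_succ_self i)
  have h8 : pr (i + k) ≤ pr i + H := by omega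
  have h9 : pr i ≤ pr (i + j) := pr_strictMono.monotone (by omega)
  have h10 : pr (i + j) ≤ pr (i + k) := pr_strictMono.monotone (by omega)
  have h11 : k * pr (i + k) ≤ k * pr (i + j) + K * H :=
    calc k * pr (i + k) ≤ k * (pr (i + j) + H) := Nat.mul_le_mul_left _ (by omega)
      _ = k * pr (i + j) + k * H := by ring
      _ ≤ _ := by gcongr
  have h12 : k * pr (i + j) ≤ k * pr (i + k) := Nat.mul_le_mul_left _ h10
  have : (K + 1) * H = K * H + H := by ring
  rw [this] at hW h2
  omega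

lemma init_lt {K H W n : ℕ} (hW : (K + 1) * H < W) (y : Fin (K + 1) × Fin K) :
    init K H W n y < 2 * W := by
  unfold init
  split_ifs with h
  · have := init_bounds hW h.2 h.1
    omega
  · omega

lemma decode {K H W n n' k : ℕ} (hW : (K + 1) * H < W) (hB : B K H n = B K H n')
    (hI : init K H W n = init K H W n') (j : ℕ) (h : (k, i0 k n + (j - k)) ∈ D K H n) :
    k * pr (i0 k n + j) + n' = k * pr (i0 k n' + j) + n := by
  induction j using Nat.strong_induction_on with
  | _ j ih =>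
    obtain ⟨a1, a2, -, -⟩ := mem_D.1 h
    rcases lt_or_ge j k with hj | hj
    · have e0 : j - k = 0 := by omega
      rw [e0] at h
      have h' := (B_eq hB h).1
      rw [add_zero] at h h'
      have := congrFun hI (⟨k, by omega⟩, ⟨j, by omega⟩)
      simp only [init, hj, h, h', and_self, if_true] at this
      have b1 := init_bounds hW h hj
      have b2 := init_bounds hW h' hj
      omega
    · obtain ⟨r, rfl⟩ : ∃ r, j = r + k := ⟨j - k, by omega⟩
      rw [Nat.add_sub_cancel] at h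
      obtain ⟨-, e1, e2⟩ := B_eq hB h
      have e3 := ih r (by omega) (D_down h (by omega) (by omega))
      have e4 := S_succ k (i0 k n + r)
      have e5 := S_succ k (i0 k n' + r)
      rw [← add_assoc, ← add_assoc]
      have e6 : pr (i0 k n + r + k) + pr (i0 k n' + r) =
        pr (i0 k n' + r + k) + pr (i0 k n + r) := by omega
      have e7 := congrArg (fun x => k * x) e6
      simp only [mul_add] at e7
      omega

lemma decode_off {K H W n n' : ℕ} (hW : (K + 1) * H < W) (hB : B K H n = B K H n')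
    (hI : init K H W n = init K H W n') {x : ℕ × ℕ} (hx : x ∈ D K H n) :
    ∃ y ∈ D K H n', n' + off n x = y.1 * pr (y.2 + y.1) := by
  have h0 := add_off hx
  obtain ⟨k, i⟩ := x
  obtain ⟨r, rfl⟩ : ∃ r, i = i0 k n + r := ⟨i - i0 k n, by have := i0_le hx; omega⟩
  refine ⟨(k, i0 k n' + r), (B_eq hB hx).1, ?_⟩
  have := decode hW hB hI (r + k) (by rwa [Nat.add_sub_cancel])
  rw [← add_assoc, ← add_assoc] at this
  simp only at h0 ⊢
  omega

theorem class_le (K H N W t u : ℕ) (hKN : K ^ 2 ≤ N) (hN : 2 ≤ N) (hW2 : 2 ≤ W) (hKW : K ≤ W)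
    (hW : (K + 1) * H < W) (ht : 0 < t) :
    (((Ioc N (N + N)).filter (fun n => (D K H n).card = t ∧ (V H n).card = u)).card : ℝ) ≤
      (H ^ u * (K * t * u ^ 2) ^ t * (2 * W) ^ ((K + 1) * K) : ℕ) *
        (N * (8 * Real.exp 73 * t * Real.log W / Real.log N) ^ t + Real.sqrt N) := by
  classical
  set s := (Ioc N (N + N)).filter (fun n => (D K H n).card = t ∧ (V H n).card = u) with hs
  set Z := ((powersetCard u (Icc 1 H)).biUnion
      (fun A => powersetCard t (Icc 1 K ×ˢ range t ×ˢ A ×ˢ A))) ×ˢ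
      Fintype.piFinset (fun _ : Fin (K + 1) × Fin K => range (2 * W)) with hZ
  have hmaps : Set.MapsTo (fun n => (B K H n, init K H W n)) s Z := by
    intro n hn
    obtain ⟨-, h1, h2⟩ := mem_filter.1 (mem_coe.1 hn)
    refine mem_coe.2 (mem_product.2 ⟨mem_biUnion.2 ⟨V H n, ?_, ?_⟩, ?_⟩)
    · exact mem_powersetCard.2 ⟨filter_subset _ _, h2⟩
    · exact mem_powersetCard.2 ⟨h1 ▸ B_subset K H n, by rw [card_B, h1]⟩
    · exact Fintype.mem_piFinset.2 fun y => mem_range.2 (init_lt hW y)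
  have hZc : Z.card ≤ H ^ u * (K * t * u ^ 2) ^ t * (2 * W) ^ ((K + 1) * K) := by
    rw [hZ, card_product, Fintype.card_piFinset]
    simp only [card_range, Finset.prod_const, card_univ, Fintype.card_prod, Fintype.card_fin]
    gcongr
    refine card_biUnion_le.trans ?_
    calc _ ≤ ∑ _A ∈ powersetCard u (Icc 1 H), (K * t * u ^ 2) ^ t := by
          refine Finset.sum_le_sum fun A hA => ?_
          rw [card_powersetCard]
          refine (Nat.choose_le_pow _ _).trans (le_of_eq ?_)
          simp only [card_product, Nat.card_Icc, card_range, (mem_powersetCard.1 hA).2]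
          congr 1
          simp only [Nat.add_sub_cancel]
          ring
      _ ≤ _ := by
          rw [Finset.sum_const, card_powersetCard, smul_eq_mul]
          gcongr
          simpa using Nat.choose_le_pow H u
  have hlW : 0 ≤ Real.log W := Real.log_natCast_nonneg W
  have hlN : 0 ≤ Real.log N := Real.log_natCast_nonneg N
  rw [card_eq_sum_card_fiberwise hmaps]
  push_cast
  have hfib : ∀ z ∈ Z, ((s.filter (fun n => (B K H n, init K H W n) = z)).card : ℝ) ≤
      N * (8 * Real.exp 73 * t * Real.log W / Real.log N) ^ t + Real.sqrt N := by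
    intro z _
    rcases (s.filter (fun n => (B K H n, init K H W n) = z)).eq_empty_or_nonempty with h | h
    · rw [h, card_empty, Nat.cast_zero]; positivity
    obtain ⟨n0, hn0⟩ := h
    obtain ⟨h1, h2⟩ := mem_filter.1 hn0
    obtain ⟨h3, h4, -⟩ := mem_filter.1 h1
    have hc : ((D K H n0).image (off n0)).card = t := by
      rw [card_image_of_injOn (off_injOn hKN (mem_Ioc.1 h3).1), h4]
    have := sieve_shifts ((D K H n0).image (off n0)) W hW2 (by
      intro e he
      obtain ⟨x, hx, rfl⟩ := mem_image.1 he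
      exact (off_le hx).trans_lt hW) (by omega) N hN
    rw [hc] at this
    refine le_trans (Nat.cast_le.2 (card_le_card fun n hn => ?_)) this
    obtain ⟨g1, g2⟩ := mem_filter.1 hn
    obtain ⟨g3, -⟩ := mem_filter.1 g1
    refine mem_filter.2 ⟨g3, fun e he => ?_⟩
    obtain ⟨x, hx, rfl⟩ := mem_image.1 he
    have g4 := h2.trans g2.symm
    simp only [Prod.mk.injEq] at g4
    obtain ⟨y, hy, e1⟩ := decode_off hW g4.1 g4.2 hx
    rw [e1]
    exact rough_off hKN (mem_Ioc.1 g3).1 hKW (rpow_le_sqrt (by omega) ht) hy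
  refine (Finset.sum_le_sum hfib).trans ?_
  rw [Finset.sum_const, nsmul_eq_mul]
  gcongr
  exact_mod_cast hZc

end Pool.Agent.Work.MP_9a1701_nt
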