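import Pool.Agent.Work.MP_9a1701_nt.Core
import Pool.Agent.Lib.ANT.PNT

/-!
# Lower bound for the number of sums of consecutive primes
-/

noncomputable section

open Finset Filter Topology

namespace Pool.Agent.Work.MP_9a1701_nt

lemma pnt_interval : ∀ᶠ y : ℝ in atTop,
    y / (4 * Real.log y) ≤
      (Nat.primeCounting ⌊2 * y⌋₊ : ℝ) - Nat.primeCounting ⌊3 / 2 * y⌋₊ := by
  have h := Pool.Agent.Lib.ANT.tendsto_primeCounting_mul_log_div
  have h1 := (h.comp (tendsto_id.const_mul_atTop (r := (2 : ℝ)) (by norm_num))).eventually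
    (lt_mem_nhds (show (0.99 : ℝ) < 1 by norm_num))
  have h2 := (h.comp (tendsto_id.const_mul_atTop (r := (3 / 2 : ℝ)) (by norm_num))).eventually
    (gt_mem_nhds (show (1 : ℝ) < 1.01 by norm_num))
  have h3 := Real.tendsto_log_atTop.eventually_ge_atTop (100 : ℝ)
  filter_upwards [h1, h2, h3, eventually_gt_atTop (1 : ℝ)] with y a1 a2 a3 a4
  simp only [Function.comp, id] at a1 a2
  have hy : 0 < y := by linarith
  have l2 : Real.log (2 * y) ≤ 1.01 * Real.log y := by
    rw [Real.log_mul (by norm_num) hy.ne']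
    have := Real.log_two_lt_d9
    linarith
  have l3 : Real.log y ≤ Real.log (3 / 2 * y) := Real.log_le_log hy (by linarith)
  rw [lt_div_iff₀ (by positivity)] at a1
  rw [div_lt_iff₀ (by positivity)] at a2
  set A : ℝ := (Nat.primeCounting ⌊2 * y⌋₊ : ℝ)
  set B : ℝ := (Nat.primeCounting ⌊3 / 2 * y⌋₊ : ℝ)
  have hA : 0 ≤ A := by positivity
  have hB : 0 ≤ B := by positivity
  have b1 : A * Real.log (2 * y) ≤ A * (1.01 * Real.log y) := by gcongr
  have b2 : B * Real.log y ≤ B * Real.log (3 / 2 * y) := by gcongr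
  rw [div_le_iff₀ (by positivity)]
  nlinarith

lemma first_moment {K N : ℕ} (h : Par K N)
    (hp : ∀ y : ℝ, Real.sqrt N ≤ y → y / (4 * Real.log y) ≤
      (Nat.primeCounting ⌊2 * y⌋₊ : ℝ) - Nat.primeCounting ⌊3 / 2 * y⌋₊) :
    (K : ℝ) ^ 63 * Real.log K / (8 * Real.log N) * N ≤
      ∑ n ∈ Ioc N (N + N), ((D K (K ^ 63) n).card : ℝ) := by
  have hK := h.K_pos
  have hN := h.N_pos
  have hL := h.logN_pos
  have hH : 2 * K ^ 63 ≤ N := by
    refine le_trans ?_ (h.pow_le 64 (by norm_num))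
    rw [pow_succ K 63, mul_comm]
    exact Nat.mul_le_mul_left _ (by have := h.hK; omega)
  refine le_trans ?_ (sum_card_D_ge K (K ^ 63) N
    (fun k => Nat.primeCounting ⌊3 / 2 * ((N : ℝ) / k)⌋₊)
    (fun k => Nat.primeCounting ⌊2 * ((N : ℝ) / k)⌋₊ - k) ?_ ?_)
  · have h1 : ∀ k ∈ Icc 1 K, (K : ℝ) ^ 63 * (N / (4 * Real.log N) * (k : ℝ)⁻¹ - K) - 2 * N ≤
        (((K ^ 63 : ℕ) : ℝ) * (((Nat.primeCounting ⌊2 * ((N : ℝ) / k)⌋₊ - k : ℕ) : ℝ) -
          (Nat.primeCounting ⌊3 / 2 * ((N : ℝ) / k)⌋₊ : ℕ)) - 2 * N) := by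
      intro k hk
      obtain ⟨k1, k2⟩ := mem_Icc.1 hk
      have k1' : (1 : ℝ) ≤ k := by exact_mod_cast k1
      have k2' : (k : ℝ) ≤ K := by exact_mod_cast k2
      have hs : Real.sqrt N ≤ N / k := by
        rw [le_div_iff₀ (by positivity)]
        have := h.pow_le_sqrt' 1 (by norm_num)
        rw [pow_one] at this
        calc _ ≤ Real.sqrt N * Real.sqrt N := by gcongr; linarith
          _ = N := Real.mul_self_sqrt hN.le
      have hy1 : 1 < (N : ℝ) / k := by
        have := h.pow_le_sqrt' 1 (by norm_num)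
        rw [pow_one] at this
        have := h.K_ge
        linarith
      have e1 := hp _ hs
      have e2 : Real.log ((N : ℝ) / k) ≤ Real.log N :=
        Real.log_le_log (by positivity) (div_le_self hN.le k1')
      have e3 : N / (4 * Real.log N) * (k : ℝ)⁻¹ ≤ (N : ℝ) / k / (4 * Real.log ((N : ℝ) / k)) := by
        have := Real.log_pos hy1
        calc _ = (N : ℝ) / k / (4 * Real.log N) := by field_simp
          _ ≤ _ := by gcongr
      have e4 : (Nat.primeCounting ⌊2 * ((N : ℝ) / k)⌋₊ : ℝ) - k ≤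
          ((Nat.primeCounting ⌊2 * ((N : ℝ) / k)⌋₊ - k : ℕ) : ℝ) := by
        have : Nat.primeCounting ⌊2 * ((N : ℝ) / k)⌋₊ ≤
          (Nat.primeCounting ⌊2 * ((N : ℝ) / k)⌋₊ - k) + k := by omega
        have : (Nat.primeCounting ⌊2 * ((N : ℝ) / k)⌋₊ : ℝ) ≤
          ((Nat.primeCounting ⌊2 * ((N : ℝ) / k)⌋₊ - k : ℕ) : ℝ) + k := by exact_mod_cast this
        linarith
      rw [Nat.cast_pow]
      refine sub_le_sub_right (mul_le_mul_of_nonneg_left ?_ (by positivity)) _
      linarith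
    refine le_trans ?_ (Finset.sum_le_sum h1)
    rw [Finset.sum_sub_distrib, ← Finset.mul_sum, Finset.sum_sub_distrib, ← Finset.mul_sum]
    simp only [Finset.sum_const, Nat.card_Icc, Nat.add_sub_cancel, nsmul_eq_mul]
    have e1 : Real.log K ≤ ∑ k ∈ Icc 1 K, (k : ℝ)⁻¹ := by
      have := log_add_one_le_harmonic K
      rw [harmonic_eq_sum_Icc] at this
      push_cast at this
      exact (Real.log_le_log hK (by linarith)).trans this
    have e2 : (K : ℝ) ^ 65 ≤ N := by exact_mod_cast h.pow_le 65 (by norm_num)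
    have e3 : 3 * (K : ℝ) ≤ (K : ℝ) ^ 63 * Real.log K / (8 * Real.log N) := by
      rw [le_div_iff₀ (by positivity)]
      have a1 := h.hL2
      have a2 := h.one_le_logK
      have a3 := h.K_ge
      have a4 : (48 : ℝ) ≤ (K : ℝ) ^ 2 := by nlinarith
      calc 3 * (K : ℝ) * (8 * Real.log N) ≤ 3 * (K : ℝ) * (8 * (2 * (K : ℝ) ^ 60)) := by gcongr
        _ = 48 * (K : ℝ) ^ 61 := by ring
        _ ≤ (K : ℝ) ^ 2 * (K : ℝ) ^ 61 := by gcongr
        _ = (K : ℝ) ^ 63 * 1 := by ring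
        _ ≤ _ := by gcongr
    have e4 : N / (4 * Real.log N) * Real.log K ≤
        N / (4 * Real.log N) * ∑ k ∈ Icc 1 K, (k : ℝ)⁻¹ := by gcongr
    have e5 : (K : ℝ) ^ 63 * (N / (4 * Real.log N) * Real.log K) =
        2 * ((K : ℝ) ^ 63 * Real.log K / (8 * Real.log N) * N) := by field_simp; ring
    have e6 : (K : ℝ) ^ 63 * (K * K) = (K : ℝ) ^ 65 := by ring
    have e7 : (K : ℝ) ^ 63 * (N / (4 * Real.log N) * Real.log K) ≤
        (K : ℝ) ^ 63 * (N / (4 * Real.log N) * ∑ k ∈ Icc 1 K, (k : ℝ)⁻¹) := by gcongr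
    have e8 : 3 * (K : ℝ) * N ≤ (K : ℝ) ^ 63 * Real.log K / (8 * Real.log N) * N := by gcongr
    have e9 : (N : ℝ) ≤ K * N := by have := h.one_le_K; nlinarith
    rw [mul_sub]
    linarith
  · intro k hk
    obtain ⟨k1, k2⟩ := mem_Icc.1 hk
    have k1' : (0 : ℝ) < k := by exact_mod_cast k1
    have e1 : ⌊3 / 2 * ((N : ℝ) / k)⌋₊ + 1 ≤ pr (Nat.primeCounting ⌊3 / 2 * ((N : ℝ) / k)⌋₊) :=
      Nat.le_nth_count Nat.infinite_setOfPred_prime _
    have e2 := Nat.lt_floor_add_one (3 / 2 * ((N : ℝ) / k))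
    have e3 : 3 / 2 * ((N : ℝ) / k) < pr (Nat.primeCounting ⌊3 / 2 * ((N : ℝ) / k)⌋₊) := by
      refine e2.trans_le ?_
      exact_mod_cast e1
    rw [← mul_div_assoc, div_lt_iff₀ k1'] at e3
    have e4 : 2 * (K : ℝ) ^ 63 ≤ N := by exact_mod_cast hH
    have : (N : ℝ) + (K : ℝ) ^ 63 <
      k * pr (Nat.primeCounting ⌊3 / 2 * ((N : ℝ) / k)⌋₊) := by
      rw [← mul_div_assoc]; linarith
    exact_mod_cast this
  · intro k hk i hi
    obtain ⟨k1, k2⟩ := mem_Icc.1 hk
    have k1' : (0 : ℝ) < k := by exact_mod_cast k1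
    have e1 : pr (i + k) < ⌊2 * ((N : ℝ) / k)⌋₊ + 1 :=
      Nat.nth_lt_of_lt_count (show i + k < Nat.primeCounting ⌊2 * ((N : ℝ) / k)⌋₊ by omega)
    have e2 : (pr (i + k) : ℝ) ≤ 2 * ((N : ℝ) / k) :=
      (Nat.cast_le.2 (Nat.lt_succ_iff.1 e1)).trans (Nat.floor_le (by positivity))
    rw [← mul_div_assoc, le_div_iff₀ k1'] at e2
    have : (k : ℝ) * pr (i + k) ≤ N + N := by linarith
    exact_mod_cast this

open Classical in
lemma sum_V_le (H N x : ℕ) (hx : N + N + H ≤ x) :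
    ∑ n ∈ Ioc N (N + N), ((V H n).card : ℝ) ≤ H * ((Icc 1 x).filter (· ∈ U)).card := by
  have : ∑ n ∈ Ioc N (N + N), (V H n).card ≤ H * ((Icc 1 x).filter (· ∈ U)).card := by
    simp only [V, card_filter]
    rw [Finset.sum_comm]
    calc _ ≤ ∑ _v ∈ Icc 1 H, ((Icc 1 x).filter (· ∈ U)).card := by
          refine Finset.sum_le_sum fun v hv => ?_
          rw [← card_filter]
          refine card_le_card_of_injOn (fun n => n + v) ?_ ?_
          · intro n hn
            obtain ⟨a1, a2⟩ := mem_filter.1 (mem_coe.1 hn)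
            have := mem_Ioc.1 a1
            have := mem_Icc.1 hv
            exact mem_coe.2 (mem_filter.2 ⟨mem_Icc.2 ⟨by simp only; omega, by simp only; omega⟩,
              a2⟩)
          · intro a _ b _ hab
            exact Nat.add_right_cancel hab
      _ = _ := by rw [Finset.sum_const, Nat.card_Icc, Nat.add_sub_cancel, smul_eq_mul, card_filter]
  exact_mod_cast this

open Classical in
lemma count_ge {K N : ℕ} (h : Par K N)
    (hp : ∀ y : ℝ, Real.sqrt N ≤ y → y / (4 * Real.log y) ≤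
      (Nat.primeCounting ⌊2 * y⌋₊ : ℝ) - Nat.primeCounting ⌊3 / 2 * y⌋₊)
    (x : ℕ) (hx : 3 * N ≤ x) :
    N * Real.log (Real.log N) / (256 * 61 * Real.log N) ≤
      (((Icc 1 x).filter (· ∈ U)).card : ℝ) := by
  have hK := h.K_pos
  have hL := h.logN_pos
  have a2 := h.one_le_logK
  have h1 := h.entropy _ (by
    rw [div_le_div_iff₀ (by norm_num) (by positivity)]
    have a1 := h.hL2
    calc (K : ℝ) ^ 3 * (8 * Real.log N) ≤ (K : ℝ) ^ 3 * (8 * (2 * (K : ℝ) ^ 60)) := by gcongr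
      _ = (K : ℝ) ^ 63 * 1 * 16 := by ring
      _ ≤ _ := by gcongr) (first_moment h hp)
  have h2 := sum_V_le (K ^ 63) N x (by have := h.pow_le 63 (by norm_num); omega)
  have h3 := h1.trans h2
  push_cast at h3
  have h4 : Real.log (Real.log N) ≤ 61 * Real.log K := by
    have : Real.log N ≤ (K : ℝ) ^ 61 := by
      have a1 := h.hL2
      have a3 := h.K_ge
      calc _ ≤ 2 * (K : ℝ) ^ 60 := a1
        _ ≤ K * (K : ℝ) ^ 60 := by gcongr; linarith
        _ = _ := by ring
    have := Real.log_le_log hL this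
    rwa [Real.log_pow] at this
  have h5 : (K : ℝ) ^ 63 * Real.log K / (8 * Real.log N) * N / 32 =
      (K : ℝ) ^ 63 * (N * (61 * Real.log K) / (256 * 61 * Real.log N)) := by
    field_simp; ring
  rw [h5] at h3
  refine le_trans ?_ (le_of_mul_le_mul_left h3 (by positivity))
  have := h.N_pos
  gcongr

lemma eventually_par : ∀ᶠ N : ℕ in atTop, ∃ K, Par K N := by
  have hlog : Tendsto (fun N : ℕ => Real.log N) atTop atTop :=
    Real.tendsto_log_atTop.comp tendsto_natCast_atTop_atTop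
  have hK : Tendsto (fun N : ℕ => ⌊Real.log N ^ ((1 : ℝ) / 60)⌋₊) atTop atTop :=
    tendsto_nat_floor_atTop.comp ((tendsto_rpow_atTop (by norm_num)).comp hlog)
  have h1 : ∀ᶠ y : ℝ in atTop, 1040 * Real.exp 73 * Real.log y ≤ y := by
    have := Real.isLittleO_log_id_atTop.bound (c := (1040 * Real.exp 73)⁻¹) (by positivity)
    filter_upwards [this, eventually_ge_atTop (1 : ℝ)] with y a b
    rw [Real.norm_of_nonneg (Real.log_nonneg b), id, Real.norm_of_nonneg (by linarith)] at a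
    rwa [← div_eq_inv_mul, le_div_iff₀' (by positivity)] at a
  have h2 := (tendsto_natCast_atTop_atTop.comp hK).eventually h1
  filter_upwards [hK.eventually_ge_atTop 10000, h2, eventually_ge_atTop 2] with N a1 a2 a3
  set K := ⌊Real.log N ^ ((1 : ℝ) / 60)⌋₊ with hKdef
  have hL : 0 ≤ Real.log N := Real.log_natCast_nonneg N
  have e0 : (Real.log N ^ ((1 : ℝ) / 60)) ^ 60 = Real.log N := by
    rw [← Real.rpow_natCast, ← Real.rpow_mul hL]; norm_num
  have e1 : (K : ℝ) ≤ Real.log N ^ ((1 : ℝ) / 60) := Nat.floor_le (by positivity)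
  have e2 : Real.log N ^ ((1 : ℝ) / 60) < K + 1 := Nat.lt_floor_add_one _
  have hK0 : (10000 : ℝ) ≤ K := by exact_mod_cast a1
  refine ⟨K, a1, a3, a2, ?_, ?_⟩
  · rw [← e0]; gcongr
  · rw [← e0]
    have e3 : (K : ℝ) + 1 ≤ K * Real.exp (1 / 100) := by
      have := Real.add_one_le_exp (1 / 100 : ℝ)
      nlinarith
    have e4 : Real.exp (1 / 100) ^ 60 ≤ 2 := by
      rw [← Real.exp_nat_mul, ← Real.le_log_iff_exp_le (by norm_num)]
      have := Real.log_two_gt_d9
      push_cast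
      linarith
    calc _ ≤ (K * Real.exp (1 / 100)) ^ 60 := by gcongr; linarith
      _ = (K : ℝ) ^ 60 * Real.exp (1 / 100) ^ 60 := mul_pow _ _ _
      _ ≤ (K : ℝ) ^ 60 * 2 := by gcongr
      _ = _ := by ring

open Classical in
theorem main : ∀ᶠ x : ℕ in atTop,
    1 / 125000 * (x * Real.log (Real.log x) / Real.log x) ≤
      (((Icc 1 x).filter (· ∈ U)).card : ℝ) := by
  obtain ⟨y0, hy0⟩ := eventually_atTop.1 pnt_interval
  have hdiv : Tendsto (fun x : ℕ => x / 3) atTop atTop := Nat.tendsto_div_const_atTop (by norm_num)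
  have hs : ∀ᶠ N : ℕ in atTop, y0 ≤ Real.sqrt N :=
    (Real.tendsto_sqrt_atTop.comp tendsto_natCast_atTop_atTop).eventually_ge_atTop y0
  have hlog : Tendsto (fun N : ℕ => Real.log N) atTop atTop :=
    Real.tendsto_log_atTop.comp tendsto_natCast_atTop_atTop
  filter_upwards [hdiv.eventually eventually_par, hdiv.eventually hs, eventually_ge_atTop 100,
    hlog.eventually_ge_atTop 4] with x a1 a2 a3 a4
  obtain ⟨K, h⟩ := a1
  set N := x / 3 with hN
  have h1 := count_ge h (fun y hy => hy0 y (a2.trans hy)) x (by omega)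
  refine le_trans ?_ h1
  have hN0 := h.N_pos
  have hL := h.logN_pos
  have b1 : (x : ℝ) ≤ 4 * N := by exact_mod_cast (by omega : x ≤ 4 * N)
  have b2 : (N : ℝ) ≤ x := by exact_mod_cast (by omega : N ≤ x)
  have b3 : Real.log N ≤ Real.log x := Real.log_le_log hN0 b2
  have b4 : Real.log x ≤ 2 * Real.log N := by
    have c1 : (x : ℝ) ≤ (N : ℝ) ^ 2 := by
      have : (4 : ℝ) ≤ N := by exact_mod_cast (by omega : 4 ≤ N)
      nlinarith
    have := Real.log_le_log (by linarith) c1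
    rwa [Real.log_pow] at this
  have b5 : Real.log (Real.log x) ≤ 2 * Real.log (Real.log N) := by
    have c1 : Real.log x ≤ Real.log N ^ 2 := by nlinarith
    have := Real.log_le_log (by linarith) c1
    rwa [Real.log_pow] at this
  have b6 : 0 ≤ Real.log (Real.log x) := Real.log_nonneg (by linarith)
  have b7 : 0 ≤ Real.log (Real.log N) := by linarith
  calc 1 / 125000 * (x * Real.log (Real.log x) / Real.log x)
      ≤ 1 / 125000 * ((4 * N) * (2 * Real.log (Real.log N)) / Real.log N) := by gcongr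
    _ = N * Real.log (Real.log N) / (15625 * Real.log N) := by field_simp; ring
    _ ≤ _ := by
      gcongr
      norm_num

end Pool.Agent.Work.MP_9a1701_nt
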