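import Pool.Agent.Lib.ANT.Mertens

/-!
# Upper bound sieve for a finite set of small shifts
-/

noncomputable section

open Finset

namespace Pool.Agent.Work.MP_9a1701_nt

open Pool.Agent.Lib.ANT

/-- `m` has no prime factor in `(W, w]`. -/
def Rough (W : ℕ) (w : ℝ) (m : ℕ) : Prop := ∀ p : ℕ, p.Prime → W < p → (p : ℝ) ≤ w → ¬ p ∣ m

lemma totient_factorial_ge (W : ℕ) (hW : 2 ≤ W) :
    (Real.exp 73 * Real.log W)⁻¹ ≤ ((W.factorial.totient : ℝ) / W.factorial) := by
  have h1 := prod_one_sub_inv_prime_inv_le W hW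
  have hf : (0 : ℝ) < W.factorial := by exact_mod_cast W.factorial_pos
  have h2 : (W.factorial.totient : ℝ) =
      W.factorial * ∏ p ∈ W.factorial.primeFactors, (1 - (p : ℝ)⁻¹) := by
    have := Nat.totient_eq_mul_prod_factors W.factorial
    have h := congrArg (fun q : ℚ => (q : ℝ)) this
    simpa using h
  have h3 : W.factorial.primeFactors = (Ioc 0 W).filter Nat.Prime := by
    ext p
    simp only [Nat.mem_primeFactors, mem_filter, mem_Ioc]
    constructor
    · rintro ⟨hp, hd, -⟩
      exact ⟨⟨hp.pos, (hp.dvd_factorial).1 hd⟩, hp⟩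
    · rintro ⟨⟨-, h⟩, hp⟩
      exact ⟨hp, (hp.dvd_factorial).2 h, W.factorial_ne_zero⟩
  rw [h2, h3, mul_div_cancel_left₀ _ hf.ne']
  have hpos : 0 < ∏ p ∈ (Ioc 0 W).filter Nat.Prime, (1 - (p : ℝ)⁻¹) := by
    refine Finset.prod_pos fun p hp => ?_
    have hp := (mem_filter.1 hp).2
    have : (1 : ℝ) < p := by exact_mod_cast hp.one_lt
    have := inv_lt_one_of_one_lt₀ this
    linarith
  rw [Finset.prod_inv_distrib] at h1
  have hl : 0 < Real.exp 73 * Real.log W := by
    have : (1 : ℝ) < W := by exact_mod_cast hW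
    have := Real.log_pos this
    positivity
  rw [inv_le_comm₀ hl hpos]
  exact h1

open Classical in
theorem sieve_shifts (E : Finset ℕ) (W : ℕ) (hW : 2 ≤ W) (hE : ∀ e ∈ E, e < W)
    (hE0 : 0 < E.card) (N : ℕ) (hN : 2 ≤ N) :
    (((Ioc N (N + N)).filter (fun n => ∀ e ∈ E,
        Rough W ((N : ℝ) ^ ((1 : ℝ) / (8 * E.card))) (n + e))).card : ℝ) ≤
      N * (8 * Real.exp 73 * E.card * Real.log W / Real.log N) ^ E.card + Real.sqrt N := by
  set m := E.card with hm
  have hN1 : (1 : ℝ) < N := by exact_mod_cast hN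
  have hN0 : (0 : ℝ) < N := by linarith
  have hm0 : (0 : ℝ) < m := by exact_mod_cast hE0
  set w : ℝ := (N : ℝ) ^ ((1 : ℝ) / (8 * m)) with hw
  have hw1 : 1 < w := Real.one_lt_rpow hN1 (by positivity)
  have hlogw : Real.log w = Real.log N / (8 * m) := by
    rw [hw, Real.log_rpow hN0]; ring
  have hwm : (w ^ m) ^ 4 = Real.sqrt N := by
    rw [hw, ← Real.rpow_natCast, ← Real.rpow_natCast, ← Real.rpow_mul hN0.le,
      ← Real.rpow_mul hN0.le, Real.sqrt_eq_rpow]
    congr 1
    field_simp
    norm_num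
  have hmW : m ≤ W := by
    have : E ⊆ range W := fun e he => mem_range.2 (hE e he)
    simpa using card_le_card this
  let Ω : ℕ → Finset ℕ := fun p => if p ≤ W then ∅ else E.image (fun e => (p - e) % p)
  have hcard : ∀ p, W < p → (Ω p).card = m := by
    intro p hp
    simp only [Ω, if_neg (not_le.2 hp)]
    refine card_image_of_injOn fun e he e' he' h => ?_
    have h1 := hE e he
    have h2 := hE e' he'
    rcases Nat.eq_zero_or_pos e with rfl | h0 <;> rcases Nat.eq_zero_or_pos e' with rfl | h0'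
    · rfl
    · rw [Nat.sub_zero, Nat.mod_self, Nat.mod_eq_of_lt (by omega)] at h; omega
    · rw [Nat.sub_zero, Nat.mod_self, Nat.mod_eq_of_lt (by omega)] at h; omega
    · rw [Nat.mod_eq_of_lt (by omega), Nat.mod_eq_of_lt (by omega)] at h; omega
  have key := sieve_dim E (fun _ => W.factorial) (fun _ _ => W.factorial_pos) w hw1 Ω
    (by
      intro p hp _ r hr
      by_cases h : p ≤ W
      · simp [Ω, h] at hr
      · simp only [Ω, if_neg h, mem_image] at hr
        obtain ⟨e, -, rfl⟩ := hr
        exact mem_range.2 (Nat.mod_lt _ hp.pos))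
    (by
      intro p hp _
      by_cases h : p ≤ W
      · simp [Ω, h, hp.pos]
      · rw [hcard p (not_le.1 h)]; omega)
    (by
      intro p hp _
      by_cases h : p ≤ W
      · have : p ∣ W.factorial := (hp.dvd_factorial).2 h
        simp [this]
      · rw [hcard p (not_le.1 h)]; exact card_filter_le _ _)
    N N
  rw [← hm, hwm, Finset.prod_const, ← hm] at key
  refine le_trans ?_ (key.trans ?_)
  · refine Nat.cast_le.2 (card_le_card fun n hn => ?_)
    rw [mem_filter] at hn ⊢
    refine ⟨hn.1, fun p hp hmem => ?_⟩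
    have hp' := mem_filter.1 hp
    have hpw : (p : ℝ) ≤ w := by
      have := mem_range.1 hp'.1
      exact (Nat.cast_le.mpr (Nat.lt_succ_iff.mp this)).trans (Nat.floor_le (by linarith))
    by_cases h : p ≤ W
    · simp [Ω, h] at hmem
    · simp only [Ω, if_neg h, mem_image] at hmem
      obtain ⟨e, he, hr⟩ := hmem
      refine hn.2 e he p hp'.2 (not_le.1 h) hpw ?_
      have h1 := hE e he
      rw [Nat.dvd_iff_mod_eq_zero, Nat.add_mod, ← hr, ← Nat.add_mod]
      have : p - e + e = p := by omega
      rw [this, Nat.mod_self]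
  · gcongr
    have hlW : 0 < Real.log W := Real.log_pos (by exact_mod_cast hW)
    have hlN : 0 < Real.log N := Real.log_pos hN1
    have ht := totient_factorial_ge W hW
    rw [div_eq_mul_inv, ← inv_pow]
    have hpos : 0 < (Real.exp 73 * Real.log W)⁻¹ * Real.log w := by
      rw [hlogw]; positivity
    have hpos' : 0 ≤ ((W.factorial.totient : ℝ) / W.factorial * Real.log w)⁻¹ := by
      have := (Real.log_pos hw1).le
      positivity
    refine mul_le_mul_of_nonneg_left (pow_le_pow_left₀ hpos' ?_ _) hN0.le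
    calc ((W.factorial.totient : ℝ) / W.factorial * Real.log w)⁻¹
        ≤ ((Real.exp 73 * Real.log W)⁻¹ * Real.log w)⁻¹ := by
          apply inv_anti₀ hpos
          gcongr
          exact (Real.log_pos hw1).le
      _ = 8 * Real.exp 73 * m * Real.log W / Real.log N := by
          rw [hlogw]; field_simp

end Pool.Agent.Work.MP_9a1701_nt
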